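import Pool.Agent.Helper47.CI.Nat

/-!
# General complete intersections of `l` ample divisors in products of projective spaces

Let `k ≥ 2`, let `N r ≥ l`, `r = 1, ..., k`, and let `d i`, `i = 1, ..., l`, be multidegrees with
`k` positive entries such that the total degree `∑ i, d i r` of each factor is at most `N r + 1`
and at most `l + 2`.  The complete intersection of `l` divisors of these multidegrees in the product
of the projective spaces of dimensions `N r` has a nef anticanonical class and dimension
`∑ r, N r - l`; it is a Calabi-Yau variety if `∑ i, d i r = N r + 1` for all `r`.  The family `a`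
consists of the coefficients of the `l` forms, `form (d i) _` is the form in the affine chart (the
first homogeneous coordinate of each factor is `1`), and `ideal d a` the ideal of all `l` forms.  If `a` does not satisfy one nonzero
polynomial equation with rational coefficients, then this ideal is prime, contains no nonzero
polynomial which does not involve the coordinates of one of the factors, has a function field of
transcendence degree `∑ r, N r - l`, and all its birational models are potentially dense.
-/

namespace Pool.Agent.Results.MP_9410e4_ag.CompleteIntersections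

open MvPolynomial AlgebraicGeometry CategoryTheory

/-- The set of points of `X` (a scheme over `K` via `s`) that are images of `L`-points of `X`
over `K`. -/
def ratPts (K : Type) [Field K] (L : Type) [Field L] [Algebra K L] (X : Scheme.{0})
    (s : X ⟶ Spec (CommRingCat.of K)) : Set X :=
  {x | ∃ p : Spec (CommRingCat.of L) ⟶ X,
    p ≫ s = Spec.map (CommRingCat.ofHom (algebraMap K L)) ∧ x ∈ Set.range p}

/-- For some finite extension `L` of `K` the set `X(L)` of `L`-points over `K` is Zariski dense. -/
inductive PotentiallyDense (K : Type) [Field K] (X : Scheme.{0})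
    (s : X ⟶ Spec (CommRingCat.of K)) : Prop
  | intro (L : Type) [Field L] [Algebra K L] [FiniteDimensional K L]
      (h : Dense (ratPts K L X s)) : PotentiallyDense K X s

/-- A nonempty open subscheme of `X` is isomorphic over `K` to an open subscheme of `Y`. -/
def BirationalOver (K : Type) [Field K] (X Y : Scheme.{0})
    (s : X ⟶ Spec (CommRingCat.of K)) (t : Y ⟶ Spec (CommRingCat.of K)) : Prop :=
  ∃ (U : X.Opens) (V : Y.Opens) (e : (U : Scheme.{0}) ≅ (V : Scheme.{0})),
    Nonempty U ∧ e.hom ≫ V.ι ≫ t = U.ι ≫ s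

/-- The homogeneous coordinates of the factor `r` in the chart. -/
noncomputable def coord (K : Type) [Field K] {k : ℕ} (N : Fin k → ℕ) (r : Fin k) :
    Fin (N r + 1) → MvPolynomial (Σ r : Fin k, Fin (N r)) K :=
  Fin.cons 1 fun j => X ⟨r, j⟩

/-- The form of multidegree `e` with the coefficients `a`, in the chart. -/
noncomputable def form {K : Type} [Field K] {k : ℕ} {N : Fin k → ℕ} (e : Fin k → ℕ)
    (a : (∀ r, Sym (Fin (N r + 1)) (e r)) → K) : MvPolynomial (Σ r : Fin k, Fin (N r)) K :=
  ∑ s : (∀ r, Sym (Fin (N r + 1)) (e r)), C (a s) * ∏ r, ((s r : Multiset (Fin (N r + 1))).map (coord K N r)).prod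

/-- The ideal of the complete intersection. -/
noncomputable def ideal {K : Type} [Field K] {k l : ℕ} {N : Fin k → ℕ} (d : Fin l → Fin k → ℕ)
    (a : (Σ i, ∀ r, Sym (Fin (N r + 1)) (d i r)) → K) : Ideal (MvPolynomial (Σ r : Fin k, Fin (N r)) K) :=
  Ideal.span (Set.range fun i => form (d i) fun s => a ⟨i, s⟩)

/-- For all families `a` of coefficients in `K` which are not a zero of `Δ`, the ideal of the
complete intersection is prime, contains no nonzero polynomial which does not involve the
coordinates of one of the factors, its residue ring has transcendence degree `∑ r, N r - l`, and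
the irreducible schemes over `K` which are birational to the spectrum of the residue ring are
potentially dense. -/
def DenseOff (K : Type) [Field K] [NumberField K] {k l : ℕ} {N : Fin k → ℕ}
    (d : Fin l → Fin k → ℕ)
    (Δ : MvPolynomial (Σ i, ∀ r, Sym (Fin (N r + 1)) (d i r)) ℚ) : Prop :=
  ∀ a : (Σ i, ∀ r, Sym (Fin (N r + 1)) (d i r)) → K, aeval a Δ ≠ 0 →
    (ideal d a).IsPrime ∧
    (∀ r : Fin k, ∀ Φ ∈ ideal d a, (∀ v ∈ Φ.vars, v.1 ≠ r) → Φ = 0) ∧
    Algebra.trdeg K (MvPolynomial (Σ r : Fin k, Fin (N r)) K ⧸ ideal d a) =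
      (∑ r, N r - l : ℕ) ∧
    ∀ (X : Scheme.{0}) (s : X ⟶ Spec (CommRingCat.of K)) [IrreducibleSpace X],
      BirationalOver K X
        (Spec (CommRingCat.of (MvPolynomial (Σ r : Fin k, Fin (N r)) K ⧸ ideal d a))) s
        (Spec.map (CommRingCat.ofHom
          (algebraMap K (MvPolynomial (Σ r : Fin k, Fin (N r)) K ⧸ ideal d a)))) →
      PotentiallyDense K X s

theorem result {k l : ℕ} (hk : 2 ≤ k) {N : Fin k → ℕ} (hN : ∀ r, l ≤ N r)
    (d : Fin l → Fin k → ℕ) (hd : ∀ i r, 0 < d i r) (h1 : ∀ r, ∑ i, d i r ≤ N r + 1)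
    (h2 : ∀ r, ∑ i, d i r ≤ l + 2) :
    ∃ Δ : MvPolynomial (Σ i, ∀ r, Sym (Fin (N r + 1)) (d i r)) ℚ, Δ ≠ 0 ∧
      ∀ (K : Type) [Field K] [NumberField K], DenseOff K d Δ := by
  obtain ⟨Δ, hΔ, H⟩ := Pool.Agent.Helper47.CI.natural hk hN d hd h1 h2
  refine ⟨Δ, hΔ, fun K _ _ a ha => ?_⟩
  obtain ⟨p1, p2, p3, p4⟩ := H K a ha
  refine ⟨p1, p2, p3, fun X s _ hX => ?_⟩
  obtain ⟨U, V, e, hU, he⟩ := hX
  have h : IsOpenImmersion (e.hom ≫ V.ι) := inferInstance
  obtain ⟨L, _, _, hL, hD⟩ := p4 X s ⟨(U : Scheme.{0}), U.ι, e.hom ≫ V.ι, inferInstance, h, hU,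
    by rw [Category.assoc]; exact he.symm⟩
  exact ⟨L, hD⟩

end Pool.Agent.Results.MP_9410e4_ag.CompleteIntersections
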