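import Pool.Agent.Helper4.CBX.Main

set_option autoImplicit false

namespace Pool.Agent.Results.MP_9410e4_ag.ConicBundles

open MvPolynomial AlgebraicGeometry CategoryTheory Pool.Agent.Helper4.CBX

/-- Let `K` be a number field and `a i`, `b i` nonzero polynomials in `K[t₁, ..., tₙ]`, all of whose
irreducible factors over the algebraic closure have degree at most `3` in each variable. Then every
`K`-scheme dominated by the variety `x_i ^ 2 = a_i(t) y_i ^ 2 + b_i(t)`, `i = 1, ..., r` (the fibre
product of `r` conic bundles over the affine space), is potentially dense. -/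
theorem result (K : Type) [Field K] [NumberField K] {n r : ℕ}
    (a b : Fin r → MvPolynomial (Fin n) K) (ha : ∀ i, a i ≠ 0) (hb : ∀ i, b i ≠ 0)
    (h : ∀ (i : Fin r) (P : MvPolynomial (Fin n) (AlgebraicClosure K)), Irreducible P →
      P ∣ map (algebraMap K (AlgebraicClosure K)) (a i * b i) → ∀ k, P.degreeOf k ≤ 3)
    (X : Scheme.{0}) (s : X ⟶ Spec (CommRingCat.of K))
    (hX : DominatedOver K X (Spec (CommRingCat.of (ConRing a b))) s
      (Spec.map (CommRingCat.ofHom (algebraMap K (ConRing a b))))) :
    PotentiallyDense K X s :=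
  Pool.Agent.Helper4.CBX.main K a b ha hb h X s hX

end Pool.Agent.Results.MP_9410e4_ag.ConicBundles
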