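import Pool.Agent.Helper76.CQ.Final

/-!
# Planes in cubic eightfolds: a 2-adic open set of potentially dense Calabi-Yau elevenfolds

For every rational cubic form `F` in ten variables which is 2-adically close to the explicit form
`F0`, some irreducible component of the variety of planes in the cubic eightfold `F = 0` has
potentially dense rational points. The component is the one through a plane which is periodic of
period ten, and 2-adically attracting, for the rational self-map that sends a plane `P` to the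
residual plane of the three-dimensional linear space that meets the eightfold in `2 P`.
-/

namespace Pool.Agent.Results.MP_9410e4_ag.CubicEightfoldsOpenSet

open MvPolynomial AlgebraicGeometry CategoryTheory

/-- The cubic form `∑ x_l x_{l+a} x_{l+b}` (indices modulo 10). -/
noncomputable def orb (a b : Fin 10) : MvPolynomial (Fin 10) ℚ :=
  ∑ l, X l * X (l + a) * X (l + b)

/-- The explicit cubic form in ten variables. -/
noncomputable def F0 : MvPolynomial (Fin 10) ℚ :=
  orb 3 3 - orb 0 4 + orb 1 5 - orb 2 4 + orb 2 5 + orb 2 6 + 2 * orb 2 7 + orb 3 6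

/-- The `i`-th row of the matrix `(1 | a)`. -/
def row {A : Type} [CommRing A] (a : Fin 3 × Fin 7 → A) (i : Fin 3) : Fin 10 → A :=
  Fin.append (m := 3) (n := 7) (Pi.single i 1) fun j => a (i, j)

/-- The form `F(y_0 r_0 + y_1 r_1 + y_2 r_2)` in `y_0, y_1, y_2`, where `r_i` are the rows of the
matrix `(1 | a)`: the restriction of `F` to the row space. -/
noncomputable def onPlane {A : Type} [CommRing A] [Algebra ℚ A] (a : Fin 3 × Fin 7 → A)
    (F : MvPolynomial (Fin 10) ℚ) : MvPolynomial (Fin 3) A :=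
  aeval (fun j : Fin 10 => ∑ i : Fin 3, C (row a i j) * X i) F

/-- The ideal of the scheme of planes in `F = 0`, in the chart of the row spaces of the matrices
`(1 | a)`: it is generated by the coefficients of the restriction of `F` to the row space. -/
noncomputable def fanoIdeal (F : MvPolynomial (Fin 10) ℚ) : Ideal (MvPolynomial (Fin 3 × Fin 7) ℚ) :=
  Ideal.span (Set.range fun m : Fin 3 →₀ ℕ => coeff m (onPlane X F))

/-- The points of the `K`-scheme `X` which are images of `L`-points of `X` over `K`. -/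
def points (K : Type) [Field K] (X : Scheme.{0}) (s : X ⟶ Spec (CommRingCat.of K))
    (L : Type) [Field L] [Algebra K L] : Set X :=
  {x | ∃ p : Spec (CommRingCat.of L) ⟶ X,
    p ≫ s = Spec.map (CommRingCat.ofHom (algebraMap K L)) ∧ x ∈ Set.range p}

/-- The `K`-scheme `X` is potentially dense: `X(L)` is Zariski dense in `X` for some finite
extension `L` of `K`. -/
inductive PotentiallyDense (K : Type) [Field K] (X : Scheme.{0})
    (s : X ⟶ Spec (CommRingCat.of K)) : Prop
  | intro (L : Type) [Field L] [Algebra K L] [FiniteDimensional K L]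
      (h : Dense (points K X s L)) : PotentiallyDense K X s

/-- The `K`-scheme `X` is birational over `K` to the affine scheme `Spec A`: nonempty open
subschemes of the two are isomorphic over `K`. -/
def BirationalOver (K : Type) [Field K] (X : Scheme.{0}) (s : X ⟶ Spec (CommRingCat.of K))
    (A : Type) [CommRing A] [Algebra K A] : Prop :=
  ∃ (U : X.Opens) (V : (Spec (CommRingCat.of A)).Opens) (e : (U : Scheme.{0}) ≅ (V : Scheme.{0})),
    Nonempty U ∧ e.hom ≫ V.ι ≫ Spec.map (CommRingCat.ofHom (algebraMap K A)) = U.ι ≫ s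

theorem F0_eq : Pool.Agent.Helper76.CQ.F0 = F0 := by
  simp only [Pool.Agent.Helper76.CQ.F0, F0, orb, Finset.mul_sum, ← Finset.sum_add_distrib,
    ← Finset.sum_sub_distrib, add_zero]
  exact Finset.sum_congr rfl fun l _ => by ring

theorem row_eq {A : Type} [CommRing A] (a : Fin 3 × Fin 7 → A) (i : Fin 3) :
    Pool.Agent.Helper76.CY.row a i = row a i := by
  funext j
  fin_cases i <;> fin_cases j <;>
    simp [row, Pool.Agent.Helper76.CY.row, Pool.Agent.Helper76.CY.bv, Pool.Agent.Helper76.CY.tv,
      Pool.Agent.Helper76.CY.c3, Fin.append, Fin.addCases]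

theorem fanoIdeal_eq (F : MvPolynomial (Fin 10) ℚ) :
    Pool.Agent.Helper76.CY.fanoIdeal F = fanoIdeal F := by
  simp only [Pool.Agent.Helper76.CY.fanoIdeal, fanoIdeal, onPlane, row_eq]

theorem result : ∃ N : ℕ, ∀ F : MvPolynomial (Fin 10) ℚ, F.IsHomogeneous 3 →
    (∀ e, ‖((coeff e F - coeff e F0 : ℚ) : ℚ_[2])‖ < (1 / 2) ^ N) →
    ∃ P ∈ (fanoIdeal F).minimalPrimes,
      (∃ ℓ : Fin 11 → MvPolynomial (Fin 3 × Fin 7) ℚ ⧸ P, AlgebraicIndependent ℚ ℓ) ∧
      ∀ (X : Scheme.{0}) (s : X ⟶ Spec (CommRingCat.of ℚ)) [IrreducibleSpace X],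
        BirationalOver ℚ X s (MvPolynomial (Fin 3 × Fin 7) ℚ ⧸ P) → PotentiallyDense ℚ X s := by
  obtain ⟨N, hN⟩ := Pool.Agent.Helper76.CQ.open_setQ
  refine ⟨N, fun F hF hc => ?_⟩
  rw [← F0_eq] at hc
  obtain ⟨P, hP, ⟨ℓ, hℓ⟩, h⟩ := hN F hF hc
  rw [fanoIdeal_eq] at hP
  refine ⟨P, hP, ⟨_, hℓ⟩, fun X s _ hX => ?_⟩
  obtain ⟨U, V, e, hU, he⟩ := hX
  obtain ⟨L, _, _, _, hd⟩ := h X s ⟨U, U.ι, e.hom ≫ V.ι, inferInstance, inferInstance, hU, by
    rw [Category.assoc]; exact he.symm⟩
  exact ⟨L, hd⟩

end Pool.Agent.Results.MP_9410e4_ag.CubicEightfoldsOpenSet
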