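import Pool.Agent.Helper16.IF.Main

set_option autoImplicit false

/-!
# Varieties with independent fibrations in curves of genus zero or one are potentially dense

Let `A` be a finitely generated domain over a number field `K`, with field of fractions `E`, and
`B i` intermediate fields of `E / K` such that each `E / B i` is the function field of a curve of
genus zero or one. If every element of `E` which lies in all `B i` is algebraic over `K` then every
variety over `K` which is birational to `Spec A` is potentially dense.
-/

namespace Pool.Agent.Results.MP_9410e4_ag.IndependentFibrations

open AlgebraicGeometry CategoryTheory Pool.Agent.Helper16.IF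

universe u

theorem result (K : Type u) [Field K] [NumberField K] (A : Type u) [CommRing A] [IsDomain A]
    [Algebra K A] [Algebra.FiniteType K A] {ι : Type u}
    (B : ι → IntermediateField K (FractionRing A))
    (h : ∀ i, IsGenusZero (B i) ∨ IsGenusOne (B i))
    (hB : ∀ e : FractionRing A, (∀ i, e ∈ B i) → IsAlgebraic K e)
    (X : Scheme.{u}) (s : X ⟶ Spec (CommRingCat.of K)) [IrreducibleSpace X]
    (hX : BirationalOver K X s A) : PotentiallyDense K X s :=
  Pool.Agent.Helper16.IF.main K A B h hB X s hX

end Pool.Agent.Results.MP_9410e4_ag.IndependentFibrations
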